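import Pool.Agent.H35.MC.Grow

set_option autoImplicit false

open Finset Function Module
open scoped BigOperators

namespace Pool.Agent.H35.MC

open Pool.Agent.H77.KM

universe u

variable {V : Type u} [AddCommGroup V] [Module (ZMod 2) V] [Fintype V]

/-- The closure property in the cases where one plane is enough. -/
theorem close_beta (R B X Y : Set V) (hcov : ∀ v : V, v ≠ 0 → v ∈ R ∨ v ∈ B)
    (hclose : ∀ x ∈ X, ∀ s s' : V, s ∈ Y → s + x ∈ Y → s' ∈ Y → s' + x ∈ Y →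
      ∀ r : V, (r = s + s' ∨ r = s + s' + x) → r ∈ R → r + x ∈ B → False)
    (W H : Submodule (ZMod 2) V) (z y : V) (hz : z ∉ W) (hWX : ∀ w ∈ W, w ≠ 0 → w ∈ X)
    (hd : 0 < dens H (SW Y W ∩ {v | v + z ∈ SW Y W}) y) : Mono R B W z := by
  classical
  have hself : ∀ x : V, x + x = 0 := fun x => ZModModule.add_self x
  have h0 : dens H (∅ : Set V) y = 0 := by
    unfold dens avg
    refine Finset.expect_eq_zero (fun w _ => ?_)
    exact ind_of_notMem (Set.notMem_empty _)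
  obtain ⟨h, _, hA, _⟩ := exists_of_dens_lt (H := H) (A := SW Y W ∩ {v | v + z ∈ SW Y W})
    (B := ∅) (y := y) (by rw [h0]; exact hd)
  set v := y + h with hv
  obtain ⟨hv1, hv2⟩ := hA
  by_contra hm
  unfold Mono at hm
  push Not at hm
  obtain ⟨⟨w1, hw1, h1⟩, ⟨w2, hw2, h2⟩⟩ := hm
  have hne : ∀ w ∈ W, z + w ≠ 0 := by
    intro w hw h0
    apply hz
    have : z = w := by
      have h3 : z + w + w = 0 + w := by rw [h0]
      rwa [add_assoc, hself, add_zero, zero_add] at h3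
    rw [this]; exact hw
  have h1' : z + w1 ∈ B := (hcov _ (hne w1 hw1)).resolve_left h1
  have h2' : z + w2 ∈ R := (hcov _ (hne w2 hw2)).resolve_right h2
  have hwne : w1 + w2 ≠ 0 := by
    intro h0
    have : w1 = w2 := by
      have h3 : w1 + w2 + w2 = 0 + w2 := by rw [h0]
      rwa [add_assoc, hself, add_zero, zero_add] at h3
    rw [this] at h1
    exact h1 h2'
  have hwW : w1 + w2 ∈ W := W.add_mem hw1 hw2
  refine hclose (w1 + w2) (hWX _ hwW hwne) (v + w2) (v + z) (hv1 w2 hw2) ?_ ?_ ?_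
    (z + w2) ?_ h2' ?_
  · have e : v + w2 + (w1 + w2) = v + w1 + (w2 + w2) := by abel
    rw [e, hself, add_zero]
    exact hv1 w1 hw1
  · have := hv2 0 W.zero_mem
    rwa [add_zero] at this
  · exact hv2 _ hwW
  · left
    have e : v + w2 + (v + z) = (v + v) + (z + w2) := by abel
    rw [e, hself, zero_add]
  · have e : z + w2 + (w1 + w2) = z + w1 + (w2 + w2) := by abel
    rw [e, hself, add_zero]
    exact h1'

/-- The closure property in the case of a line: three sets are made sparse on one subspace. -/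
theorem close_line (R B : Set V) (h0R : (0 : V) ∉ R) (h0B : (0 : V) ∉ B)
    (hRB : ∀ v ∈ R, v ∉ B) (hcov : ∀ v : V, v ≠ 0 → v ∈ R ∨ v ∈ B) (t : ℕ)
    (hdR : ∀ H : Submodule (ZMod 2) V, t ≤ finrank (ZMod 2) H → (1 / 2 : ℝ) ^ t ≤ dens H R 0)
    (hline : ∀ r r' x : V, r ∈ R → r' ∈ R → r + r' ∈ R → x ∈ B → x + r ∈ B → x + r' ∈ B →
      x + (r + r') ∈ B → False)
    (W H : Submodule (ZMod 2) V) (z y : V) (hz : z ∉ W) (hWX : ∀ w ∈ W, w ≠ 0 → w ∈ B)
    (hdim : t + 42 * (4 * t + 13) * stepDim (4 * t + 13) ≤ finrank (ZMod 2) H)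
    (hd : (1 / 2 : ℝ) ^ (4 * t + 13) ≤ dens H (SW B W ∩ {v | v + z ∈ SW B W}) y) :
    Mono R B W z := by
  classical
  have hself : ∀ x : V, x + x = 0 := fun x => ZModModule.add_self x
  by_contra hm
  unfold Mono at hm
  push Not at hm
  obtain ⟨⟨w1, hw1, h1⟩, ⟨w2, hw2, h2⟩⟩ := hm
  have hne : ∀ w ∈ W, z + w ≠ 0 := by
    intro w hw h0
    apply hz
    have : z = w := by
      have h3 : z + w + w = 0 + w := by rw [h0]
      rwa [add_assoc, hself, add_zero, zero_add] at h3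
    rw [this]; exact hw
  have hb : z + w1 ∈ B := (hcov _ (hne w1 hw1)).resolve_left h1
  have hr : z + w2 ∈ R := (hcov _ (hne w2 hw2)).resolve_right h2
  set w := w1 + w2 with hw
  have hwW : w ∈ W := W.add_mem hw1 hw2
  have hwne : w ≠ 0 := by
    intro h0
    have : w1 = w2 := by
      have h3 : w1 + w2 + w2 = 0 + w2 := by rw [← hw, h0]
      rwa [add_assoc, hself, add_zero, zero_add] at h3
    rw [this] at h1
    exact h1 hr
  have hwB : w ∈ B := hWX w hwW hwne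
  have hrw : z + w2 + w = z + w1 := by
    have e : z + w2 + (w1 + w2) = z + w1 + (w2 + w2) := by abel
    rw [hw, e, hself, add_zero]
  -- a blue point x: the points y of R with y + x in B form a sum free set
  have hF : ∀ x ∈ B, ∀ u ∈ {y | y ∈ R ∧ y + x ∈ B}, ∀ v ∈ {y | y ∈ R ∧ y + x ∈ B},
      u + v ∉ {y | y ∈ R ∧ y + x ∈ B} := by
    rintro x hx u ⟨hu1, hu2⟩ v ⟨hv1, hv2⟩ ⟨huv1, huv2⟩
    refine hline u v x hu1 hv1 huv1 hx ?_ ?_ ?_
    · rwa [add_comm] at hu2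
    · rwa [add_comm] at hv2
    · rwa [add_comm] at huv2
  set A1 : Set V := SW B W ∩ {v | v + z ∈ SW B W} with hA1
  set C1 : Set V := {y | ∃ w' ∈ W, y + w' ∈ R ∧ y + w' + (z + w2) ∈ R} with hC1
  have hAC1 : ∀ u ∈ A1, ∀ v ∈ A1, u + v ∉ C1 := by
    rintro u ⟨hu1, hu2⟩ v ⟨hv1, hv2⟩ ⟨w', hw', hc1, hc2⟩
    refine hline (z + w2) (u + v + w') v hr hc1 ?_ ?_ ?_ ?_ ?_
    · rwa [add_comm] at hc2
    · have := hv1 0 W.zero_mem
      rwa [add_zero] at this
    · have := hv2 w2 hw2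
      rwa [add_assoc] at this
    · have e : v + (u + v + w') = (v + v) + (u + w') := by abel
      rw [e, hself, zero_add]
      exact hu1 w' hw'
    · have e : v + (z + w2 + (u + v + w')) = (v + v) + (u + z + (w2 + w')) := by abel
      rw [e, hself, zero_add]
      exact hu2 _ (W.add_mem hw2 hw')
  obtain ⟨H', hle, hcod, hsp⟩ := sparsify (ι := Fin 3)
    ![A1, {y | y ∈ R ∧ y + (z + w1) ∈ B}, {y | y ∈ R ∧ y + w ∈ B}]
    ![C1, {y | y ∈ R ∧ y + (z + w1) ∈ B}, {y | y ∈ R ∧ y + w ∈ B}]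
    (by
      intro i
      fin_cases i
      · exact hAC1
      · exact hF _ hb
      · exact hF _ hwB)
    (e := 4 * t + 13) (by omega) H
    (by
      intro i
      fin_cases i
      · right; exact le_trans hd (dens_le_mx H A1 y)
      · left; exact subset_rfl
      · left; exact subset_rfl)
  rw [Fintype.card_fin] at hcod
  have hcod' : 14 * (4 * t + 13) * 3 * stepDim (4 * t + 13)
      = 42 * (4 * t + 13) * stepDim (4 * t + 13) := by ring
  rw [hcod'] at hcod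
  have hR := hdR H' (by omega)
  have hs1 : dens H' C1 0 ≤ (1 / 2) ^ (4 * t + 13) := hsp 0
  have hs2 : dens H' {y | y ∈ R ∧ y + (z + w1) ∈ B} 0 ≤ (1 / 2) ^ (4 * t + 13) := hsp 1
  have hs3 : dens H' {y | y ∈ R ∧ y + w ∈ B} 0 ≤ (1 / 2) ^ (4 * t + 13) := hsp 2
  have hlt : dens H' (C1 ∪ ({y | y ∈ R ∧ y + (z + w1) ∈ B} ∪ {y | y ∈ R ∧ y + w ∈ B})) 0
      < dens H' R 0 := by
    have u1 := dens_union H' C1 ({y | y ∈ R ∧ y + (z + w1) ∈ B} ∪ {y | y ∈ R ∧ y + w ∈ B}) 0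
    have u2 := dens_union H' {y | y ∈ R ∧ y + (z + w1) ∈ B} {y | y ∈ R ∧ y + w ∈ B} 0
    have h8 : (1 / 2 : ℝ) ^ (4 * t + 13) ≤ (1 / 2) ^ (t + 2) :=
      pow_le_pow_of_le_one (by norm_num) (by norm_num) (by omega)
    have h9 : (1 / 2 : ℝ) ^ (t + 2) = (1 / 2) ^ t * (1 / 4) := by rw [pow_add]; norm_num
    have h10 : (0 : ℝ) < (1 / 2) ^ t := by positivity
    rw [h9] at h8
    linarith
  obtain ⟨h, _, hyR, hyn⟩ := exists_of_dens_lt hlt
  set y' := 0 + h with hy'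
  have hn1 : y' ∉ C1 := fun h => hyn (Or.inl h)
  have hn2 : ¬ (y' ∈ R ∧ y' + (z + w1) ∈ B) := fun h => hyn (Or.inr (Or.inl h))
  have hn3 : ¬ (y' ∈ R ∧ y' + w ∈ B) := fun h => hyn (Or.inr (Or.inr h))
  have hdiff : ∀ b ∈ B, y' + b ≠ 0 := by
    intro b hb' h0
    have : y' = b := by
      have h3 : y' + b + b = 0 + b := by rw [h0]
      rwa [add_assoc, hself, add_zero, zero_add] at h3
    rw [this] at hyR
    exact hRB _ hyR hb'
  have hr1 : y' + w ∈ R := (hcov _ (hdiff w hwB)).resolve_right (fun h => hn3 ⟨hyR, h⟩)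
  have hr2 : y' + (z + w1) ∈ R := (hcov _ (hdiff _ hb)).resolve_right (fun h => hn2 ⟨hyR, h⟩)
  refine hn1 ⟨w, hwW, hr1, ?_⟩
  have e : y' + w + (z + w2) = y' + (z + w2 + w) := by abel
  rw [e, hrw]
  exact hr2

end Pool.Agent.H35.MC
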