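import Mathlib

set_option autoImplicit false

open Module

namespace Pool.Agent.H35.MC

/-- The seven nontrivial sums of three vectors do not vanish. -/
def Ind3 {V : Type*} [AddCommGroup V] (u v w : V) : Prop :=
  u ≠ 0 ∧ v ≠ 0 ∧ w ≠ 0 ∧ u + v ≠ 0 ∧ u + w ≠ 0 ∧ v + w ≠ 0 ∧ u + v + w ≠ 0

instance {V : Type*} [AddCommGroup V] [DecidableEq V] (u v w : V) : Decidable (Ind3 u v w) := by
  unfold Ind3; infer_instance

lemma zmod2_cases (a : ZMod 2) : a = 0 ∨ a = 1 := by revert a; decide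

lemma lin_of_ind3 {V : Type*} [AddCommGroup V] [Module (ZMod 2) V] {u v w : V}
    (h : Ind3 u v w) : LinearIndependent (ZMod 2) ![u, v, w] := by
  obtain ⟨h1, h2, h3, h4, h5, h6, h7⟩ := h
  rw [Fintype.linearIndependent_iff]
  intro g hg
  rw [Fin.sum_univ_three] at hg
  simp only [Matrix.cons_val_zero, Matrix.cons_val_one, Matrix.cons_val_two] at hg
  have hg' : g 0 • u + g 1 • v + g 2 • w = 0 := hg
  have h0 : g 0 = 0 ∧ g 1 = 0 ∧ g 2 = 0 := by
    rcases zmod2_cases (g 0) with a0 | a0 <;> rcases zmod2_cases (g 1) with a1 | a1 <;>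
      rcases zmod2_cases (g 2) with a2 | a2 <;>
      rw [a0, a1, a2] at hg' <;> simp only [zero_smul, one_smul, zero_add, add_zero] at hg'
    · exact ⟨a0, a1, a2⟩
    · exact absurd hg' h3
    · exact absurd hg' h2
    · exact absurd hg' h6
    · exact absurd hg' h1
    · exact absurd hg' h5
    · exact absurd hg' h4
    · exact absurd hg' h7
  intro i
  fin_cases i
  · exact h0.1
  · exact h0.2.1
  · exact h0.2.2

lemma ext_one : ∀ v : Fin 3 → ZMod 2, v ≠ 0 → ∃ u p, Ind3 v u p := by decide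

lemma ext_two : ∀ v v' : Fin 3 → ZMod 2, v ≠ 0 → v' ≠ 0 → v ≠ v' → ∃ p, Ind3 v v' p := by
  decide

lemma add_ne_zero_of_ne {V : Type*} [AddCommGroup V] [Module (ZMod 2) V] {u v : V}
    (h : u ≠ v) : u + v ≠ 0 := by
  intro h0
  apply h
  have h3 : u + v + v = 0 + v := by rw [h0]
  rwa [add_assoc, ZModModule.add_self v, add_zero, zero_add] at h3

lemma ind_or_line (u v w : Fin 3 → ZMod 2) (hu : u ≠ 0) (hv : v ≠ 0) (hw : w ≠ 0)
    (huv : u ≠ v) (huw : u ≠ w) (hvw : v ≠ w) : w = u + v ∨ Ind3 u v w := by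
  by_cases h : w = u + v
  · exact Or.inl h
  · right
    exact ⟨hu, hv, hw, add_ne_zero_of_ne huv, add_ne_zero_of_ne huw, add_ne_zero_of_ne hvw,
      add_ne_zero_of_ne (fun h' => h h'.symm)⟩

/-- A linear map with prescribed values on a basis of a three dimensional space carries one
set to another as soon as this holds on the seven sums. -/
theorem embed {V : Type*} [AddCommGroup V] [Module (ZMod 2) V]
    (R0 : Set (Fin 3 → ZMod 2)) (R : Set V) {v0 v1 v2 : Fin 3 → ZMod 2} {r0 r1 r2 : V}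
    (hv : Ind3 v0 v1 v2) (hr : Ind3 r0 r1 r2)
    (h1 : v0 ∈ R0 ↔ r0 ∈ R) (h2 : v1 ∈ R0 ↔ r1 ∈ R) (h3 : v2 ∈ R0 ↔ r2 ∈ R)
    (h4 : v0 + v1 ∈ R0 ↔ r0 + r1 ∈ R) (h5 : v0 + v2 ∈ R0 ↔ r0 + r2 ∈ R)
    (h6 : v1 + v2 ∈ R0 ↔ r1 + r2 ∈ R) (h7 : v0 + v1 + v2 ∈ R0 ↔ r0 + r1 + r2 ∈ R) :
    ∃ φ : (Fin 3 → ZMod 2) →ₗ[ZMod 2] V, Function.Injective φ ∧
      ∀ v, v ≠ 0 → (v ∈ R0 ↔ φ v ∈ R) := by
  set b : Basis (Fin 3) (ZMod 2) (Fin 3 → ZMod 2) :=
    basisOfLinearIndependentOfCardEqFinrank (lin_of_ind3 hv) (by simp) with hb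
  have hb' : ⇑b = ![v0, v1, v2] := coe_basisOfLinearIndependentOfCardEqFinrank _ _
  set φ : (Fin 3 → ZMod 2) →ₗ[ZMod 2] V := b.constr (ZMod 2) ![r0, r1, r2] with hφ
  have e0 : φ v0 = r0 := by
    have := b.constr_basis (ZMod 2) ![r0, r1, r2] 0
    rw [hb'] at this
    exact this
  have e1 : φ v1 = r1 := by
    have := b.constr_basis (ZMod 2) ![r0, r1, r2] 1
    rw [hb'] at this
    exact this
  have e2 : φ v2 = r2 := by
    have := b.constr_basis (ZMod 2) ![r0, r1, r2] 2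
    rw [hb'] at this
    exact this
  have hall : ∀ v : Fin 3 → ZMod 2, v = 0 ∨ v = v0 ∨ v = v1 ∨ v = v2 ∨ v = v0 + v1 ∨
      v = v0 + v2 ∨ v = v1 + v2 ∨ v = v0 + v1 + v2 := by
    intro v
    have hs := b.sum_repr v
    rw [Fin.sum_univ_three, hb'] at hs
    have hs' : (b.repr v) 0 • v0 + (b.repr v) 1 • v1 + (b.repr v) 2 • v2 = v := hs
    rcases zmod2_cases ((b.repr v) 0) with a0 | a0 <;>
      rcases zmod2_cases ((b.repr v) 1) with a1 | a1 <;>
      rcases zmod2_cases ((b.repr v) 2) with a2 | a2 <;>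
      rw [a0, a1, a2] at hs' <;>
      simp only [zero_smul, one_smul, zero_add, add_zero] at hs'
    · exact Or.inl hs'.symm
    · exact Or.inr (Or.inr (Or.inr (Or.inl hs'.symm)))
    · exact Or.inr (Or.inr (Or.inl hs'.symm))
    · exact Or.inr (Or.inr (Or.inr (Or.inr (Or.inr (Or.inr (Or.inl hs'.symm))))))
    · exact Or.inr (Or.inl hs'.symm)
    · exact Or.inr (Or.inr (Or.inr (Or.inr (Or.inr (Or.inl hs'.symm)))))
    · exact Or.inr (Or.inr (Or.inr (Or.inr (Or.inl hs'.symm))))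
    · exact Or.inr (Or.inr (Or.inr (Or.inr (Or.inr (Or.inr (Or.inr hs'.symm))))))
  obtain ⟨k1, k2, k3, k4, k5, k6, k7⟩ := hr
  refine ⟨φ, ?_, ?_⟩
  · rw [injective_iff_map_eq_zero]
    intro v hv0
    rcases hall v with rfl | rfl | rfl | rfl | rfl | rfl | rfl | rfl
    · rfl
    · rw [e0] at hv0; exact absurd hv0 k1
    · rw [e1] at hv0; exact absurd hv0 k2
    · rw [e2] at hv0; exact absurd hv0 k3
    · rw [map_add, e0, e1] at hv0; exact absurd hv0 k4
    · rw [map_add, e0, e2] at hv0; exact absurd hv0 k5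
    · rw [map_add, e1, e2] at hv0; exact absurd hv0 k6
    · rw [map_add, map_add, e0, e1, e2] at hv0; exact absurd hv0 k7
  · intro v hv0
    rcases hall v with rfl | rfl | rfl | rfl | rfl | rfl | rfl | rfl
    · exact absurd rfl hv0
    · rw [e0]; exact h1
    · rw [e1]; exact h2
    · rw [e2]; exact h3
    · rw [map_add, e0, e1]; exact h4
    · rw [map_add, e0, e2]; exact h5
    · rw [map_add, e1, e2]; exact h6
    · rw [map_add, map_add, e0, e1, e2]; exact h7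

/-- The classification of the two-colourings of the plane of order two, as far as needed. -/
theorem classify (R0 : Set (Fin 3 → ZMod 2)) (h0 : (0 : Fin 3 → ZMod 2) ∉ R0)
    (hne : R0.Nonempty) (hcard : R0.ncard ≤ 3) :
    (∃ v, R0 = {v}) ∨ (∃ u v, u ≠ v ∧ R0 = {u, v}) ∨
      (∃ u v, u ≠ v ∧ u ≠ 0 ∧ v ≠ 0 ∧ R0 = {u, v, u + v}) ∨
      ∃ u v w, Ind3 u v w ∧ R0 = {u, v, w} := by
  have hpos : 0 < R0.ncard := (Set.ncard_pos (Set.toFinite _)).mpr hne
  have : R0.ncard = 1 ∨ R0.ncard = 2 ∨ R0.ncard = 3 := by omega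
  rcases this with h | h | h
  · left; exact Set.ncard_eq_one.mp h
  · right; left
    obtain ⟨u, v, huv, hR⟩ := Set.ncard_eq_two.mp h
    exact ⟨u, v, huv, hR⟩
  · right; right
    obtain ⟨u, v, w, huv, huw, hvw, hR⟩ := Set.ncard_eq_three.mp h
    have hu0 : u ≠ 0 := by rintro rfl; exact h0 (by rw [hR]; simp)
    have hv0 : v ≠ 0 := by rintro rfl; exact h0 (by rw [hR]; simp)
    have hw0 : w ≠ 0 := by rintro rfl; exact h0 (by rw [hR]; simp)
    rcases ind_or_line u v w hu0 hv0 hw0 huv huw hvw with h1 | h1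
    · left; exact ⟨u, v, huv, hu0, hv0, by rw [hR, h1]⟩
    · right; exact ⟨u, v, w, h1, hR⟩

end Pool.Agent.H35.MC
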