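import Pool.Agent.H35.MC.Vec
import Pool.Agent.H35.MC.Embed

set_option autoImplicit false

open Module

namespace Pool.Agent.H35.MC

lemma facts1 : ∀ v u p : Fin 3 → ZMod 2, Ind3 v u p →
    u ≠ v ∧ p ≠ v ∧ v + u ≠ v ∧ v + p ≠ v := by decide

lemma facts2 : ∀ v u p : Fin 3 → ZMod 2, Ind3 v u p →
    u + p ≠ v ∧ v + u + p ≠ v ∧ p ≠ u ∧ v + u ≠ u := by decide

lemma facts3 : ∀ v u p : Fin 3 → ZMod 2, Ind3 v u p →
    v + p ≠ u ∧ u + p ≠ u ∧ v + u + p ≠ u ∧ p ≠ v + u := by decide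

lemma facts4 : ∀ v u p : Fin 3 → ZMod 2, Ind3 v u p →
    v + p ≠ v + u ∧ u + p ≠ v + u ∧ v + u + p ≠ v + u := by decide

lemma facts (v u p : Fin 3 → ZMod 2) (h : Ind3 v u p) :
    (u ≠ v ∧ p ≠ v ∧ v + u ≠ v ∧ v + p ≠ v ∧ u + p ≠ v ∧ v + u + p ≠ v) ∧
    (p ≠ u ∧ v + u ≠ u ∧ v + p ≠ u ∧ u + p ≠ u ∧ v + u + p ≠ u) ∧
    (p ≠ v + u ∧ v + p ≠ v + u ∧ u + p ≠ v + u ∧ v + u + p ≠ v + u) := by
  obtain ⟨a1, a2, a3, a4⟩ := facts1 v u p h
  obtain ⟨b1, b2, b3, b4⟩ := facts2 v u p h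
  obtain ⟨c1, c2, c3, c4⟩ := facts3 v u p h
  obtain ⟨d1, d2, d3⟩ := facts4 v u p h
  exact ⟨⟨a1, a2, a3, a4, b1, b2⟩, ⟨b3, b4, c1, c2, c3⟩, c4, d1, d2, d3⟩

universe u

variable {V : Type u} [AddCommGroup V] [Module (ZMod 2) V] [Fintype V]

theorem types_of_free (R0 : Set (Fin 3 → ZMod 2)) (h0 : (0 : Fin 3 → ZMod 2) ∉ R0)
    (hne : R0.Nonempty) (hcard : R0.ncard ≤ 3)
    (hnotri : ¬ ∃ u v w, Ind3 u v w ∧ R0 = {u, v, w})
    (R B : Set V) (h0R : (0 : V) ∉ R) (h0B : (0 : V) ∉ B) (hRB : ∀ v ∈ R, v ∉ B)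
    (hfree : ¬ ∃ φ : (Fin 3 → ZMod 2) →ₗ[ZMod 2] V, Function.Injective φ ∧
      ∀ v, v ≠ 0 → (v ∈ R0 ↔ φ v ∈ R)) :
    NoOne R B ∨ NoTwo R B ∨ NoLine R B := by
  have neR : ∀ {v : V}, v ∈ R → v ≠ 0 := fun {v} hv h => h0R (by rwa [h] at hv)
  have neB : ∀ {v : V}, v ∈ B → v ≠ 0 := fun {v} hv h => h0B (by rwa [h] at hv)
  have nR : ∀ {v : V}, v ∈ B → v ∉ R := fun {v} hv h => hRB v h hv
  rcases classify R0 h0 hne hcard with ⟨v, hR⟩ | ⟨u, v, huv, hR⟩ | ⟨u, v, huv, hu, hv, hR⟩ | htri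
  · left
    have hv0 : v ≠ 0 := by rintro rfl; exact h0 (by rw [hR]; rfl)
    obtain ⟨a, p, hI⟩ := ext_one v hv0
    obtain ⟨⟨f1, f2, f3, f4, f5, f6⟩, -, -⟩ := facts v a p hI
    intro r s x hr hs hx hrs hrx hsx hrsx
    rw [← add_assoc] at hrsx
    apply hfree
    refine embed R0 R hI ⟨neR hr, neB hs, neB hx, neB hrs, neB hrx, neB hsx, neB hrsx⟩
      ?_ ?_ ?_ ?_ ?_ ?_ ?_
    · exact iff_of_true (by rw [hR]; exact rfl) hr
    · exact iff_of_false (by rw [hR]; exact f1) (nR hs)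
    · exact iff_of_false (by rw [hR]; exact f2) (nR hx)
    · exact iff_of_false (by rw [hR]; exact f3) (nR hrs)
    · exact iff_of_false (by rw [hR]; exact f4) (nR hrx)
    · exact iff_of_false (by rw [hR]; exact f5) (nR hsx)
    · exact iff_of_false (by rw [hR]; exact f6) (nR hrsx)
  · right; left
    have hu0 : u ≠ 0 := by rintro rfl; exact h0 (by rw [hR]; exact Or.inl rfl)
    have hv0 : v ≠ 0 := by rintro rfl; exact h0 (by rw [hR]; exact Or.inr rfl)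
    obtain ⟨p, hI⟩ := ext_two u v hu0 hv0 huv
    obtain ⟨⟨f1, f2, f3, f4, f5, f6⟩, ⟨g1, g2, g3, g4, g5⟩, -⟩ := facts u v p hI
    have hnot : ∀ {w : Fin 3 → ZMod 2}, w ≠ u → w ≠ v → w ∉ R0 := by
      intro w h1 h2 hw
      rw [hR] at hw
      rcases hw with h | h
      · exact h1 h
      · exact h2 h
    intro r r' x hr hr' hrr hx hxr hxr' hxrr
    rw [add_comm] at hxr hxr' hxrr
    apply hfree
    refine embed R0 R hI ⟨neR hr, neR hr', neB hx, neB hrr, neB hxr, neB hxr', neB hxrr⟩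
      ?_ ?_ ?_ ?_ ?_ ?_ ?_
    · exact iff_of_true (by rw [hR]; exact Or.inl rfl) hr
    · exact iff_of_true (by rw [hR]; exact Or.inr rfl) hr'
    · exact iff_of_false (hnot f2 g1) (nR hx)
    · exact iff_of_false (hnot f3 g2) (nR hrr)
    · exact iff_of_false (hnot f4 g3) (nR hxr)
    · exact iff_of_false (hnot f5 g4) (nR hxr')
    · exact iff_of_false (hnot f6 g5) (nR hxrr)
  · right; right
    obtain ⟨p, hI⟩ := ext_two u v hu hv huv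
    obtain ⟨⟨f1, f2, f3, f4, f5, f6⟩, ⟨g1, g2, g3, g4, g5⟩, k1, k2, k3, k4⟩ := facts u v p hI
    have hnot : ∀ {w : Fin 3 → ZMod 2}, w ≠ u → w ≠ v → w ≠ u + v → w ∉ R0 := by
      intro w h1 h2 h3 hw
      rw [hR] at hw
      rcases hw with h | h | h
      · exact h1 h
      · exact h2 h
      · exact h3 h
    intro r r' x hr hr' hrr hx hxr hxr' hxrr
    rw [add_comm] at hxr hxr' hxrr
    apply hfree
    refine embed R0 R hI ⟨neR hr, neR hr', neB hx, neR hrr, neB hxr, neB hxr', neB hxrr⟩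
      ?_ ?_ ?_ ?_ ?_ ?_ ?_
    · exact iff_of_true (by rw [hR]; exact Or.inl rfl) hr
    · exact iff_of_true (by rw [hR]; exact Or.inr (Or.inl rfl)) hr'
    · exact iff_of_false (hnot f2 g1 k1) (nR hx)
    · exact iff_of_true (by rw [hR]; exact Or.inr (Or.inr rfl)) hrr
    · exact iff_of_false (hnot f4 g3 k2) (nR hxr)
    · exact iff_of_false (hnot f5 g4 k3) (nR hxr')
    · exact iff_of_false (hnot f6 g5 k4) (nR hxrr)
  · exact absurd htri hnotri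

end Pool.Agent.H35.MC
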