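import Pool.Agent.H35.MC.Pot

set_option autoImplicit false

open Finset Function Module
open scoped BigOperators

namespace Pool.Agent.H35.MC

open Pool.Agent.H77.KM

universe u

variable {V : Type u} [AddCommGroup V] [Module (ZMod 2) V] [Fintype V]

/-- The points `y` with `y + W` contained in `Y`. -/
def SW (Y : Set V) (W : Submodule (ZMod 2) V) : Set V := {y | ∀ w ∈ W, y + w ∈ Y}

/-- The coset `z + W` has one colour. -/
def Mono (R B : Set V) (W : Submodule (ZMod 2) V) (z : V) : Prop :=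
  (∀ w ∈ W, z + w ∈ R) ∨ (∀ w ∈ W, z + w ∈ B)

lemma mono_of_mem {R B X : Set V} (hRB : ∀ v ∈ R, v ∉ B) (hX : X = R ∨ X = B)
    {W : Submodule (ZMod 2) V} {z : V} (hz : z ∈ X) (h : Mono R B W z) :
    ∀ w ∈ W, z + w ∈ X := by
  have h0 : (0 : V) ∈ W := W.zero_mem
  rcases hX with rfl | rfl <;> rcases h with h | h
  · exact h
  · exact absurd (by simpa using h 0 h0) (hRB z hz)
  · exact absurd hz (hRB z (by simpa using h 0 h0))
  · exact h

/-- The cost of one step of the growth argument. -/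
def cost (t : ℕ) : ℕ :=
  14 * (2 * t + 5) * stepDim (2 * t + 5) + 14 * (t + 1) * stepDim (t + 1)

/-- The growth argument: a subspace of colour `X` together with a coset on which the points
`y` with `y + W ⊆ Y` are dense grows by one dimension. -/
theorem grow (R B X Y : Set V) (hRB : ∀ v ∈ R, v ∉ B)
    (hX : X = R ∨ X = B) (hY : Y = R ∨ Y = B) (t D : ℕ) (ht : 1 ≤ t)
    (hdR : ∀ H : Submodule (ZMod 2) V, t ≤ finrank (ZMod 2) H → (1 / 2 : ℝ) ^ t ≤ dens H R 0)
    (hdB : ∀ H : Submodule (ZMod 2) V, t ≤ finrank (ZMod 2) H → (1 / 2 : ℝ) ^ t ≤ dens H B 0)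
    (hCL : ∀ (W H : Submodule (ZMod 2) V) (z y : V), z ∉ W → (∀ w ∈ W, w ≠ 0 → w ∈ X) →
      D ≤ finrank (ZMod 2) H →
      (1 / 2 : ℝ) ^ (4 * t + 13) ≤ dens H (SW Y W ∩ {v | v + z ∈ SW Y W}) y → Mono R B W z)
    (j : ℕ) (hj : j ≤ t) (hbig : D + (2 * t + 2) + j * cost t ≤ finrank (ZMod 2) V) :
    ∃ (W H : Submodule (ZMod 2) V) (y : V), finrank (ZMod 2) W = j ∧
      (∀ w ∈ W, w ≠ 0 → w ∈ X) ∧ finrank (ZMod 2) V ≤ finrank (ZMod 2) H + j * cost t ∧
      (1 / 2 : ℝ) ^ (2 * t + 5) ≤ dens H (SW Y W) y := by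
  classical
  have hself : ∀ x : V, x + x = 0 := fun x => ZModModule.add_self x
  induction j with
  | zero =>
    refine ⟨⊥, ⊤, 0, finrank_bot _ _, ?_, ?_, ?_⟩
    · intro w hw hw0
      exact absurd ((Submodule.mem_bot _).mp hw) hw0
    · rw [finrank_top]; omega
    · have h1 : (1 / 2 : ℝ) ^ t ≤ dens (⊤ : Submodule (ZMod 2) V) Y 0 := by
        have ht' : t ≤ finrank (ZMod 2) (⊤ : Submodule (ZMod 2) V) := by
          rw [finrank_top]; omega
        rcases hY with rfl | rfl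
        · exact hdR ⊤ ht'
        · exact hdB ⊤ ht'
      have h2 : Y ⊆ SW Y (⊥ : Submodule (ZMod 2) V) := by
        intro v hv w hw
        rw [(Submodule.mem_bot _).mp hw, add_zero]
        exact hv
      have h3 : (1 / 2 : ℝ) ^ (2 * t + 5) ≤ (1 / 2) ^ t :=
        pow_le_pow_of_le_one (by norm_num) (by norm_num) (by omega)
      exact le_trans h3 (le_trans h1 (dens_mono _ h2 0))
  | succ j ih =>
    have hc : (j + 1) * cost t = j * cost t + cost t := by ring
    rw [hc] at hbig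
    obtain ⟨W, H, y, hWj, hWX, hcod, hd⟩ := ih (by omega) (by omega)
    -- first application of popularity
    obtain ⟨H1, hle1, hcod1, y1, hα1, hun1⟩ := popular (SW Y W) (d := 2 * t + 5) (by omega) H y hd
    have hcost : cost t = 14 * (2 * t + 5) * stepDim (2 * t + 5)
      + 14 * (t + 1) * stepDim (t + 1) := rfl
    have hdim1 : D + (2 * t + 2) + 14 * (t + 1) * stepDim (t + 1) ≤ finrank (ZMod 2) H1 := by
      omega
    have hWsmall : ∀ H' : Submodule (ZMod 2) V, 2 * t + 2 ≤ finrank (ZMod 2) H' →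
        dens H' (W : Set V) 0 ≤ (1 / 2) ^ (t + 2) := by
      intro H' hH'
      refine le_trans (dens_subspace_le H' W) ?_
      rw [hWj, div_le_iff₀ (by positivity)]
      have h1 : (2 : ℝ) ^ (2 * t + 2) ≤ 2 ^ finrank (ZMod 2) H' :=
        pow_le_pow_right₀ (by norm_num) hH'
      have h2 : (2 : ℝ) ^ j ≤ 2 ^ t := pow_le_pow_right₀ (by norm_num) (by omega)
      have h3 : (1 / 2 : ℝ) ^ (t + 2) * 2 ^ (2 * t + 2) = 2 ^ t := by
        have : (2 : ℝ) ^ (2 * t + 2) = 2 ^ (t + 2) * 2 ^ t := by rw [← pow_add]; congr 1; ring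
        rw [this, ← mul_assoc, ← mul_pow]
        norm_num
      have h4 : (1 / 2 : ℝ) ^ (t + 2) * 2 ^ (2 * t + 2)
          ≤ (1 / 2 : ℝ) ^ (t + 2) * 2 ^ finrank (ZMod 2) H' :=
        mul_le_mul_of_nonneg_left h1 (by positivity)
      linarith
    have hsub : Y ⊆ SW Y W ∪ (Unpop H1 (SW Y W) y1 ∪ (W : Set V)) := by
      intro z hz
      by_cases hzW : z ∈ W
      · exact Or.inr (Or.inr hzW)
      by_cases hzU : z ∈ Unpop H1 (SW Y W) y1
      · exact Or.inr (Or.inl hzU)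
      left
      have h1 : 1 / 8 * dens H1 (SW Y W) y1 ^ 2
          < dens H1 (SW Y W ∩ {v | v + z ∈ SW Y W}) y1 := not_le.mp hzU
      have h2 : (1 / 2 : ℝ) ^ (4 * t + 13) ≤ 1 / 8 * dens H1 (SW Y W) y1 ^ 2 := by
        have h3 : ((1 / 2 : ℝ) ^ (2 * t + 5)) ^ 2 ≤ dens H1 (SW Y W) y1 ^ 2 :=
          pow_le_pow_left₀ (by positivity) hα1 2
        have h4 : (1 / 2 : ℝ) ^ (4 * t + 13) = 1 / 8 * ((1 / 2 : ℝ) ^ (2 * t + 5)) ^ 2 := by
          rw [← pow_mul, show 4 * t + 13 = 3 + (2 * t + 5) * 2 by ring, pow_add]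
          norm_num
        rw [h4]
        linarith
      have hm := hCL W H1 z y1 hzW hWX (by omega) (le_trans h2 h1.le)
      exact mono_of_mem hRB hY hz hm
    have hS1 : (1 / 2 : ℝ) ^ (t + 1) ≤ dens H1 (SW Y W) 0 := by
      have h1 : (1 / 2 : ℝ) ^ t ≤ dens H1 Y 0 := by
        rcases hY with rfl | rfl
        · exact hdR H1 (by omega)
        · exact hdB H1 (by omega)
      have h2 := dens_mono H1 hsub 0
      have h3 := dens_union H1 (SW Y W) (Unpop H1 (SW Y W) y1 ∪ (W : Set V)) 0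
      have h4 := dens_union H1 (Unpop H1 (SW Y W) y1) (W : Set V) 0
      have h5 := hWsmall H1 (by omega)
      have h6 : (1 / 2 : ℝ) ^ (2 * t + 5 + 1) ≤ (1 / 2) ^ (t + 2) :=
        pow_le_pow_of_le_one (by norm_num) (by norm_num) (by omega)
      have h7 : (1 / 2 : ℝ) ^ (t + 1) = (1 / 2) ^ t * (1 / 2) := pow_succ _ _
      have h8 : (1 / 2 : ℝ) ^ (t + 2) = (1 / 2) ^ t * (1 / 4) := by rw [pow_add]; norm_num
      rw [h7]
      rw [h8] at h5 h6
      linarith
    -- second application of popularity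
    obtain ⟨H2, hle2, hcod2, y2, hα2, hun2⟩ := popular (SW Y W) (d := t + 1) (by omega) H1 0 hS1
    have hdim2 : D + (2 * t + 2) ≤ finrank (ZMod 2) H2 := by omega
    have hX2 : (1 / 2 : ℝ) ^ t ≤ dens H2 X 0 := by
      rcases hX with rfl | rfl
      · exact hdR H2 (by omega)
      · exact hdB H2 (by omega)
    have hlt : dens H2 (Unpop H2 (SW Y W) y2 ∪ (W : Set V)) 0 < dens H2 X 0 := by
      have h4 := dens_union H2 (Unpop H2 (SW Y W) y2) (W : Set V) 0
      have h5 := hWsmall H2 (by omega)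
      have h8 : (1 / 2 : ℝ) ^ (t + 2) = (1 / 2) ^ t * (1 / 4) := by rw [pow_add]; norm_num
      have h9 : (0 : ℝ) < (1 / 2) ^ t := by positivity
      have h10 : (1 / 2 : ℝ) ^ (t + 1 + 1) = (1 / 2) ^ (t + 2) := rfl
      rw [h10] at hun2
      rw [h8] at h5 hun2
      linarith
    obtain ⟨z, hzH, hzX, hzn⟩ := exists_of_dens_lt hlt
    rw [zero_add] at hzX hzn
    have hzW : z ∉ W := fun h => hzn (Or.inr h)
    have hzU : z ∉ Unpop H2 (SW Y W) y2 := fun h => hzn (Or.inl h)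
    have hpop : (1 / 2 : ℝ) ^ (2 * t + 5) ≤ dens H2 (SW Y W ∩ {v | v + z ∈ SW Y W}) y2 := by
      have h1 : 1 / 8 * dens H2 (SW Y W) y2 ^ 2
          < dens H2 (SW Y W ∩ {v | v + z ∈ SW Y W}) y2 := not_le.mp hzU
      have h3 : ((1 / 2 : ℝ) ^ (t + 1)) ^ 2 ≤ dens H2 (SW Y W) y2 ^ 2 :=
        pow_le_pow_left₀ (by positivity) hα2 2
      have h4 : (1 / 2 : ℝ) ^ (2 * t + 5) = 1 / 8 * ((1 / 2 : ℝ) ^ (t + 1)) ^ 2 := by
        rw [← pow_mul, show 2 * t + 5 = 3 + (t + 1) * 2 by ring, pow_add]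
        norm_num
      rw [h4]
      linarith
    have hmono : Mono R B W z := by
      refine hCL W H2 z y2 hzW hWX (by omega) (le_trans ?_ hpop)
      exact pow_le_pow_of_le_one (by norm_num) (by norm_num) (by omega)
    have hzall : ∀ w ∈ W, z + w ∈ X := mono_of_mem hRB hX hzX hmono
    have hz0 : z ≠ 0 := fun h => hzW (by rw [h]; exact W.zero_mem)
    have hcases : ∀ v ∈ W ⊔ Submodule.span (ZMod 2) {z}, v ∈ W ∨ ∃ w ∈ W, v = z + w := by
      intro v hv
      rw [Submodule.mem_sup] at hv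
      obtain ⟨w, hw, x, hx, rfl⟩ := hv
      rw [Submodule.mem_span_singleton] at hx
      obtain ⟨c, rfl⟩ := hx
      have hc2 : ∀ c : ZMod 2, c = 0 ∨ c = 1 := by decide
      rcases hc2 c with rfl | rfl
      · left; rw [zero_smul, add_zero]; exact hw
      · right; exact ⟨w, hw, by rw [one_smul, add_comm]⟩
    refine ⟨W ⊔ Submodule.span (ZMod 2) {z}, H2, y2, ?_, ?_, ?_, ?_⟩
    · have h1 := Submodule.finrank_sup_add_finrank_inf_eq W (Submodule.span (ZMod 2) {z})
      have h2 : W ⊓ Submodule.span (ZMod 2) {z} = ⊥ := by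
        rw [← disjoint_iff, Submodule.disjoint_span_singleton' hz0]
        exact hzW
      rw [h2, finrank_bot, finrank_span_singleton hz0, hWj] at h1
      omega
    · intro v hv hv0
      rcases hcases v hv with h | ⟨w, hw, rfl⟩
      · exact hWX v h hv0
      · exact hzall w hw
    · rw [hc]; omega
    · refine le_trans hpop (dens_mono H2 ?_ y2)
      rintro v ⟨hv1, hv2⟩ u hu
      rcases hcases u hu with h | ⟨w, hw, rfl⟩
      · exact hv1 u h
      · have := hv2 w hw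
        rwa [add_assoc] at this

end Pool.Agent.H35.MC
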