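import Pool.Agent.H35.MC.Rel

set_option autoImplicit false

open Finset Function Module
open scoped BigOperators

namespace Pool.Agent.H35.MC

open Pool.Agent.H77.KM

universe u

variable {V : Type u} [AddCommGroup V] [Module (ZMod 2) V] [Fintype V]

/-- The largest density of `A` on a coset of `H`. -/
noncomputable def mx (H : Submodule (ZMod 2) V) (A : Set V) : ℝ :=
  Finset.univ.sup' Finset.univ_nonempty (fun y => dens H A y)

lemma dens_le_mx (H : Submodule (ZMod 2) V) (A : Set V) (y : V) : dens H A y ≤ mx H A :=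
  Finset.le_sup' (fun y => dens H A y) (Finset.mem_univ y)

lemma exists_mx (H : Submodule (ZMod 2) V) (A : Set V) : ∃ y, mx H A = dens H A y := by
  obtain ⟨y, _, hy⟩ := Finset.exists_mem_eq_sup' (Finset.univ_nonempty (α := V))
    (fun y => dens H A y)
  exact ⟨y, hy⟩

lemma mx_le_one (H : Submodule (ZMod 2) V) (A : Set V) : mx H A ≤ 1 := by
  obtain ⟨y, hy⟩ := exists_mx H A
  rw [hy]; exact dens_le_one H A y

lemma mx_mono {H H' : Submodule (ZMod 2) V} (hle : H' ≤ H) (A : Set V) : mx H A ≤ mx H' A := by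
  obtain ⟨y, hy⟩ := exists_mx H A
  rw [hy, dens_eq_avg_dens hle A y]
  exact Finset.expect_le (sf_nonempty H) (fun h _ => dens_le_mx H' A _)

/-- The truncated potential. -/
noncomputable def pot (e : ℕ) (H : Submodule (ZMod 2) V) (A : Set V) : ℝ :=
  max ((1 / 2) ^ e) (mx H A)

lemma pot_pos (e : ℕ) (H : Submodule (ZMod 2) V) (A : Set V) : 0 < pot e H A :=
  lt_of_lt_of_le (by positivity) (le_max_left _ _)

lemma pot_ge (e : ℕ) (H : Submodule (ZMod 2) V) (A : Set V) : (1 / 2 : ℝ) ^ e ≤ pot e H A :=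
  le_max_left _ _

lemma pot_le_one (e : ℕ) (H : Submodule (ZMod 2) V) (A : Set V) : pot e H A ≤ 1 :=
  max_le (pow_le_one₀ (by norm_num) (by norm_num)) (mx_le_one H A)

lemma pot_mono (e : ℕ) {H H' : Submodule (ZMod 2) V} (hle : H' ≤ H) (A : Set V) :
    pot e H A ≤ pot e H' A :=
  max_le_max le_rfl (mx_mono hle A)

lemma pot_eq {e : ℕ} {H : Submodule (ZMod 2) V} {A : Set V} (h : (1 / 2 : ℝ) ^ e ≤ mx H A) :
    pot e H A = mx H A := max_eq_right h

/-- Abstract iteration of an increment step along a decreasing sequence of subspaces. -/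
theorem iterate_pot {ι : Type} [Fintype ι] (F : ι → Submodule (ZMod 2) V → ℝ)
    (hmono : ∀ i H H', H' ≤ H → F i H ≤ F i H') (h1 : ∀ i H, F i H ≤ 1)
    (hpos : ∀ i H, 0 < F i H) (Good : Submodule (ZMod 2) V → Prop) (s : ℕ)
    (hstep : ∀ H, ¬ Good H → ∃ H' ≤ H, finrank (ZMod 2) H ≤ finrank (ZMod 2) H' + s ∧
      ∃ i, 135 / 128 * F i H ≤ F i H') (N : ℕ) :
    ∀ H, 1 < (∏ i, F i H) * (135 / 128 : ℝ) ^ N →
      ∃ H' ≤ H, finrank (ZMod 2) H ≤ finrank (ZMod 2) H' + N * s ∧ Good H' := by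
  classical
  induction N with
  | zero =>
    intro H hH
    exfalso
    rw [pow_zero, mul_one] at hH
    have : ∏ i, F i H ≤ 1 :=
      Finset.prod_le_one (fun i _ => (hpos i H).le) (fun i _ => h1 i H)
    linarith
  | succ N ih =>
    intro H hH
    by_cases hG : Good H
    · exact ⟨H, le_rfl, by omega, hG⟩
    · obtain ⟨H', hle, hcod, i, hi⟩ := hstep H hG
      have hprod : 135 / 128 * (∏ i, F i H) ≤ ∏ i, F i H' := by
        rw [← Finset.mul_prod_erase Finset.univ (fun i => F i H) (Finset.mem_univ i),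
          ← Finset.mul_prod_erase Finset.univ (fun i => F i H') (Finset.mem_univ i), ← mul_assoc]
        refine mul_le_mul hi ?_ (Finset.prod_nonneg (fun j _ => (hpos j H).le)) (hpos i H').le
        exact Finset.prod_le_prod (fun j _ => (hpos j H).le) (fun j _ => hmono j H H' hle)
      obtain ⟨H'', hle', hcod', hG'⟩ := ih H' (by
        refine lt_of_lt_of_le hH ?_
        rw [pow_succ', ← mul_assoc]
        refine mul_le_mul_of_nonneg_right ?_ (by positivity)
        linarith)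
      refine ⟨H'', hle'.trans hle, ?_, hG'⟩
      have : (N + 1) * s = N * s + s := by ring
      omega

lemma budget {ι : Type} [Fintype ι] [Nonempty ι] (F : ι → ℝ) {e : ℕ} (he : 1 ≤ e)
    (hF : ∀ i, (1 / 2 : ℝ) ^ e ≤ F i) :
    1 < (∏ i, F i) * (135 / 128 : ℝ) ^ (14 * e * Fintype.card ι) := by
  have h1 : ((1 / 2 : ℝ) ^ e) ^ Fintype.card ι ≤ ∏ i, F i := by
    rw [← Finset.card_univ, ← Finset.prod_const]
    exact Finset.prod_le_prod (fun i _ => by positivity) (fun i _ => hF i)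
  have h2 : (1 : ℝ) < ((1 / 2) ^ e) ^ Fintype.card ι * (135 / 128) ^ (14 * e * Fintype.card ι) := by
    have e1 : (135 / 128 : ℝ) ^ (14 * e * Fintype.card ι)
        = ((135 / 128 : ℝ) ^ 14) ^ (e * Fintype.card ι) := by
      rw [← pow_mul]; congr 1; ring
    rw [e1, ← pow_mul, ← mul_pow]
    refine one_lt_pow₀ (by norm_num) ?_
    have : 0 < Fintype.card ι := Fintype.card_pos
    positivity
  exact lt_of_lt_of_le h2 (mul_le_mul_of_nonneg_right h1 (by positivity))

/-- Popular sums: on a subspace of small codimension almost every element is a popular sum. -/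
theorem popular (A : Set V) {d : ℕ} (hd : 1 ≤ d) (H : Submodule (ZMod 2) V) (y : V)
    (hα : (1 / 2 : ℝ) ^ d ≤ dens H A y) :
    ∃ H' ≤ H, finrank (ZMod 2) H ≤ finrank (ZMod 2) H' + 14 * d * stepDim d ∧
      ∃ y', (1 / 2 : ℝ) ^ d ≤ dens H' A y' ∧ dens H' (Unpop H' A y') 0 ≤ (1 / 2) ^ (d + 1) := by
  classical
  obtain ⟨H', hle, hcod, hG⟩ := iterate_pot (ι := Unit) (fun _ H => pot d H A)
    (fun _ H H' h => pot_mono d h A) (fun _ H => pot_le_one d H A) (fun _ H => pot_pos d H A)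
    (fun H => mx H A < (1 / 2 : ℝ) ^ d ∨ ∃ y', (1 / 2 : ℝ) ^ d ≤ dens H A y' ∧
      dens H (Unpop H A y') 0 ≤ (1 / 2) ^ (d + 1)) (stepDim d)
    (fun H hH => by
      push Not at hH
      obtain ⟨h1, h2⟩ := hH
      obtain ⟨y', hy'⟩ := exists_mx H A
      have h3 := h2 y' (by rw [← hy']; exact h1)
      obtain ⟨H', hle, hcod, y'', hy''⟩ := pop_rel H A y' hd (by rw [← hy']; exact h1) h3
      refine ⟨H', hle, hcod, (), ?_⟩
      rw [pot_eq h1, hy']
      exact le_trans hy'' (le_trans (dens_le_mx H' A y'') (le_max_right _ _)))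
    (14 * d * Fintype.card Unit) H (budget _ hd (fun _ => pot_ge d H A))
  rw [Fintype.card_unit, mul_one] at hcod
  refine ⟨H', hle, hcod, ?_⟩
  rcases hG with h | h
  · exfalso
    have h1 := mx_mono hle A
    have h2 := dens_le_mx H A y
    linarith
  · exact h

/-- Simultaneous sparsification. -/
theorem sparsify {ι : Type} [Fintype ι] [Nonempty ι] (A C : ι → Set V)
    (hAC : ∀ i, ∀ u ∈ A i, ∀ v ∈ A i, u + v ∉ C i) {e : ℕ} (he : 1 ≤ e)
    (H : Submodule (ZMod 2) V) (hact : ∀ i, C i ⊆ A i ∨ (1 / 2 : ℝ) ^ e ≤ mx H (A i)) :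
    ∃ H' ≤ H, finrank (ZMod 2) H ≤ finrank (ZMod 2) H' + 14 * e * Fintype.card ι * stepDim e ∧
      ∀ i, dens H' (C i) 0 ≤ (1 / 2) ^ e := by
  classical
  obtain ⟨H', hle, hcod, hG⟩ := iterate_pot (fun i H => pot e H (A i))
    (fun i H H' h => pot_mono e h (A i)) (fun i H => pot_le_one e H (A i))
    (fun i H => pot_pos e H (A i))
    (fun H => (∃ i, ¬ C i ⊆ A i ∧ mx H (A i) < (1 / 2 : ℝ) ^ e) ∨
      ∀ i, dens H (C i) 0 ≤ (1 / 2) ^ e) (stepDim e)
    (fun H hH => by
      push Not at hH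
      obtain ⟨h1, i, h2⟩ := hH
      have h3 : (1 / 2 : ℝ) ^ e ≤ mx H (A i) := by
        by_cases hsub : C i ⊆ A i
        · exact le_trans h2.le (le_trans (dens_mono H hsub 0) (dens_le_mx H (A i) 0))
        · exact h1 i hsub
      obtain ⟨y', hy'⟩ := exists_mx H (A i)
      obtain ⟨H', hle, hcod, y'', hy''⟩ := inc_rel H (A i) (C i) y' (hAC i) he
        (by rw [← hy']; exact h3)
        (lt_of_le_of_lt (pow_le_pow_of_le_one (by norm_num) (by norm_num) (by omega)) h2)
      refine ⟨H', hle, hcod, i, ?_⟩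
      rw [pot_eq h3, hy']
      exact le_trans hy'' (le_trans (dens_le_mx H' (A i) y'') (le_max_right _ _)))
    (14 * e * Fintype.card ι) H (budget _ he (fun i => pot_ge e H (A i)))
  refine ⟨H', hle, hcod, ?_⟩
  rcases hG with ⟨i, h1, h2⟩ | h
  · exfalso
    rcases hact i with h3 | h3
    · exact h1 h3
    · have := mx_mono hle (A i)
      linarith
  · exact h

end Pool.Agent.H35.MC
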