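import Pool.Agent.H77.KM.Chain

set_option autoImplicit false

open Finset Function Module
open scoped BigOperators

namespace Pool.Agent.H35.MC

open Pool.Agent.H77.KM

universe u

variable {V : Type u} [AddCommGroup V] [Module (ZMod 2) V] [Fintype V]

/-- The density of `A` on the coset `y + H`. -/
noncomputable def dens (H : Submodule (ZMod 2) V) (A : Set V) (y : V) : ℝ :=
  avg (sf H) (ind A) y

lemma ind_nonneg (A : Set V) (x : V) : 0 ≤ ind A x := by
  rcases ind_cases A x with h | h <;> rw [h] <;> norm_num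

lemma ind_le_one (A : Set V) (x : V) : ind A x ≤ 1 := by
  rcases ind_cases A x with h | h <;> rw [h] <;> norm_num

lemma ind_mono {A B : Set V} (h : A ⊆ B) (x : V) : ind A x ≤ ind B x := by
  by_cases hx : x ∈ A
  · rw [ind_of_mem hx, ind_of_mem (h hx)]
  · rw [ind_of_notMem hx]; exact ind_nonneg B x

lemma dens_nonneg (H : Submodule (ZMod 2) V) (A : Set V) (y : V) : 0 ≤ dens H A y :=
  avg_nonneg _ (ind_nonneg A) y

lemma dens_le_one (H : Submodule (ZMod 2) V) (A : Set V) (y : V) : dens H A y ≤ 1 :=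
  avg_le _ (sf_nonempty H) (ind_le_one A) y

lemma dens_mono (H : Submodule (ZMod 2) V) {A B : Set V} (h : A ⊆ B) (y : V) :
    dens H A y ≤ dens H B y :=
  Finset.expect_le_expect (fun _ _ => ind_mono h _)

lemma dens_union (H : Submodule (ZMod 2) V) (A B : Set V) (y : V) :
    dens H (A ∪ B) y ≤ dens H A y + dens H B y := by
  unfold dens avg
  rw [← Finset.expect_add_distrib]
  refine Finset.expect_le_expect (fun w _ => ?_)
  by_cases hA : y + w ∈ A
  · have hAB : y + w ∈ A ∪ B := Or.inl hA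
    rw [ind_of_mem hA, ind_of_mem hAB]
    linarith [ind_nonneg B (y + w)]
  · by_cases hB : y + w ∈ B
    · rw [ind_of_mem hB]
      linarith [ind_nonneg A (y + w), ind_le_one (A ∪ B) (y + w)]
    · have hAB : y + w ∉ A ∪ B := fun h => h.elim hA hB
      rw [ind_of_notMem hA, ind_of_notMem hB, ind_of_notMem hAB]
      norm_num

/-- If the density of `A` exceeds that of `B`, there is a point of `A` outside `B`. -/
lemma exists_of_dens_lt {H : Submodule (ZMod 2) V} {A B : Set V} {y : V}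
    (h : dens H B y < dens H A y) : ∃ w ∈ H, y + w ∈ A ∧ y + w ∉ B := by
  by_contra hcon
  push Not at hcon
  refine absurd h (not_lt.mpr ?_)
  unfold dens avg
  refine Finset.expect_le_expect (fun w hw => ?_)
  rw [mem_sf] at hw
  by_cases hA : y + w ∈ A
  · rw [ind_of_mem (hcon w hw hA)]; exact ind_le_one _ _
  · rw [ind_of_notMem hA]; exact ind_nonneg _ _

lemma dens_subspace_le (H W : Submodule (ZMod 2) V) :
    dens H (W : Set V) 0 ≤ 2 ^ finrank (ZMod 2) W / 2 ^ finrank (ZMod 2) H := by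
  classical
  unfold dens
  rw [avg_ind, card_sf]
  push_cast
  refine div_le_div_of_nonneg_right ?_ (by positivity)
  have h1 : ((sf H).filter (fun w => 0 + w ∈ (W : Set V))).card ≤ (sf W).card := by
    refine Finset.card_le_card (fun w hw => ?_)
    rw [Finset.mem_filter] at hw
    rw [mem_sf]
    have := hw.2
    rwa [zero_add] at this
  rw [card_sf] at h1
  exact_mod_cast h1

/-- Averages over a coset of a smaller subspace bound averages over a coset of a larger one. -/
lemma dens_eq_avg_dens {H H' : Submodule (ZMod 2) V} (hle : H' ≤ H) (A : Set V) (y : V) :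
    dens H A y = 𝔼 h ∈ sf H, dens H' A (y + h) := by
  unfold dens avg
  rw [Finset.expect_comm]
  have h1 : ∀ h' ∈ sf H', 𝔼 h ∈ sf H, ind A (y + h + h') = 𝔼 h ∈ sf H, ind A (y + h) := by
    intro h' hh'
    rw [mem_sf] at hh'
    have := expect_sf_add H (fun w => ind A (y + w)) (hle hh')
    simp only [← add_assoc] at this
    exact this
  rw [Finset.expect_congr rfl h1, Finset.expect_const (sf_nonempty H')]

/-- The increment step with popular sums in place of sums. -/
lemma increment_pop (a c : V → ℝ) (ha : ∀ x, a x = 0 ∨ a x = 1) (hc : ∀ x, c x = 0 ∨ c x = 1)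
    (hpop : ∀ x, c x = 1 → corr a a x ≤ 1 / 8 * (𝔼 x, a x) ^ 2) {d : ℕ} (hd : 1 ≤ d)
    (hα : (1 / 2 : ℝ) ^ d ≤ 𝔼 x, a x) (hγ : (1 / 2 : ℝ) ^ (d + 1) < 𝔼 x, c x) :
    ∃ W : Submodule (ZMod 2) V,
      finrank (ZMod 2) V ≤ finrank (ZMod 2) W + stepDim d ∧
      ∃ x0, 135 / 128 * (𝔼 x, a x) ≤ avg (sf W) a x0 := by
  have hαpos : 0 < 𝔼 x, a x := lt_of_lt_of_le (by positivity) hα
  refine increment_of_even_moment a ha hd hα ?_
  set α : ℝ := 𝔼 x, a x with hαd
  set f : V → ℝ := fun y => a y / α - 1 with hf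
  have hpe : Even (2 * d + 10) := ⟨d + 5, by ring⟩
  have h1 : ∀ x, (7 / 8 : ℝ) ^ (2 * d + 10) * c x ≤ corr f f x ^ (2 * d + 10) := by
    intro x
    rcases hc x with h | h
    · rw [h, mul_zero]; exact hpe.pow_nonneg _
    · have h2 := hpop x h
      have h3 : corr f f x ≤ -(7 / 8) := by
        rw [hf, corr_normalised a a hαpos.ne' hαpos.ne', ← hαd]
        have : corr a a x / (α * α) ≤ 1 / 8 := by
          rw [div_le_iff₀ (by positivity)]
          linarith [sq α]
        linarith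
      rw [h, mul_one, ← hpe.neg_pow (corr f f x)]
      exact pow_le_pow_left₀ (by norm_num) (by linarith) _
  have h2 : (7 / 8 : ℝ) ^ (2 * d + 10) * (𝔼 x, c x) ≤ 𝔼 x, corr f f x ^ (2 * d + 10) := by
    rw [Finset.mul_expect]
    exact Finset.expect_le_expect (fun x _ => h1 x)
  refine le_trans ?_ h2
  have h3 : (7 / 8 : ℝ) ^ (2 * d + 10) * (1 / 2) ^ (d + 1)
      ≤ (7 / 8 : ℝ) ^ (2 * d + 10) * (𝔼 x, c x) :=
    mul_le_mul_of_nonneg_left hγ.le (by positivity)
  refine le_trans ?_ h3
  have e1 : (1 / 2 : ℝ) ^ (2 * d + 10) = (1 / 4) ^ (d + 5) := by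
    rw [show 2 * d + 10 = 2 * (d + 5) by ring, pow_mul]; norm_num
  have e2 : (7 / 8 : ℝ) ^ (2 * d + 10) = (49 / 64) ^ (d + 5) := by
    rw [show 2 * d + 10 = 2 * (d + 5) by ring, pow_mul]; norm_num
  have e3 : (1 / 2 : ℝ) ^ (d + 5) ≤ (1 / 2) ^ (d + 1) :=
    pow_le_pow_of_le_one (by norm_num) (by norm_num) (by omega)
  rw [e1, e2]
  calc (1 / 4 : ℝ) ^ (d + 5) ≤ (49 / 128) ^ (d + 5) :=
        pow_le_pow_left₀ (by norm_num) (by norm_num) _
    _ = (49 / 64) ^ (d + 5) * (1 / 2) ^ (d + 5) := by rw [← mul_pow]; norm_num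
    _ ≤ _ := mul_le_mul_of_nonneg_left e3 (by positivity)

lemma expect_eq_dens (H : Submodule (ZMod 2) V) [Fintype H] (A : Set V) (y : V) :
    𝔼 h : H, ind A (y + (h : V)) = dens H A y := by
  rw [← expect_sf_eq H (fun w => ind A (y + w))]
  rfl

lemma avg_sub_eq_dens (H : Submodule (ZMod 2) V) [Fintype H] (W : Submodule (ZMod 2) H)
    (A : Set V) (y : V) (x0 : H) :
    avg (sf W) (fun h : H => ind A (y + (h : V))) x0 = dens (W.map H.subtype) A (y + x0) := by
  unfold dens avg
  rw [expect_sf_map H W (fun w => ind A (y + x0 + w))]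
  refine Finset.expect_congr rfl (fun w _ => ?_)
  show ind A (y + ((x0 + w : H) : V)) = _
  rw [Submodule.coe_add, add_assoc]

/-- The relative increment step: `A + A` misses `C`. -/
lemma inc_rel (H : Submodule (ZMod 2) V) (A C : Set V) (y : V)
    (hAC : ∀ u ∈ A, ∀ v ∈ A, u + v ∉ C) {d : ℕ} (hd : 1 ≤ d)
    (hα : (1 / 2 : ℝ) ^ d ≤ dens H A y) (hγ : (1 / 2 : ℝ) ^ (d + 1) < dens H C 0) :
    ∃ H' ≤ H, finrank (ZMod 2) H ≤ finrank (ZMod 2) H' + stepDim d ∧
      ∃ y', 135 / 128 * dens H A y ≤ dens H' A y' := by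
  classical
  have hself : ∀ x : V, x + x = 0 := fun x => ZModModule.add_self x
  have hα' : (1 / 2 : ℝ) ^ d ≤ 𝔼 h : H, ind A (y + (h : V)) := by rwa [expect_eq_dens]
  have hγ' : (1 / 2 : ℝ) ^ (d + 1) < 𝔼 h : H, ind C (0 + (h : V)) := by rwa [expect_eq_dens]
  obtain ⟨W, hW, hx⟩ := increment (V := H) (fun h => ind A (y + (h : V)))
    (fun h => ind A (y + (h : V))) (fun h => ind C (0 + (h : V)))
    (fun h => ind_cases A _) (fun h => ind_cases A _) (fun h => ind_cases C _)
    (fun x x' => by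
      by_cases h1 : y + (x : V) ∈ A
      · by_cases h2 : y + (x' : V) ∈ A
        · have h3 := hAC _ h1 _ h2
          have h4 : y + (x : V) + (y + x') = 0 + ((x + x' : H) : V) := by
            rw [Submodule.coe_add, add_add_add_comm, hself]
          rw [h4] at h3
          rw [ind_of_notMem h3, mul_zero]
        · rw [ind_of_notMem h2, mul_zero, zero_mul]
      · rw [ind_of_notMem h1, zero_mul, zero_mul])
    hd hα' hα' hγ'
  refine ⟨W.map H.subtype, Submodule.map_subtype_le H W, ?_, ?_⟩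
  · rw [Submodule.finrank_map_subtype_eq]
    exact hW
  · have : ∃ x0, 135 / 128 * (𝔼 h : H, ind A (y + (h : V)))
        ≤ avg (sf W) (fun h : H => ind A (y + (h : V))) x0 := by
      rcases hx with h | h <;> exact h
    obtain ⟨x0, hx0⟩ := this
    rw [expect_eq_dens, avg_sub_eq_dens] at hx0
    exact ⟨_, hx0⟩

/-- The unpopular sums of `A` on the coset `y + H`. -/
def Unpop (H : Submodule (ZMod 2) V) (A : Set V) (y : V) : Set V :=
  {z | dens H (A ∩ {v | v + z ∈ A}) y ≤ 1 / 8 * dens H A y ^ 2}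

lemma ind_inter (A B : Set V) (x : V) : ind (A ∩ B) x = ind A x * ind B x := by
  by_cases hA : x ∈ A
  · by_cases hB : x ∈ B
    · have hAB : x ∈ A ∩ B := ⟨hA, hB⟩
      rw [ind_of_mem hA, ind_of_mem hB, ind_of_mem hAB, one_mul]
    · have hAB : x ∉ A ∩ B := fun h => hB h.2
      rw [ind_of_notMem hB, ind_of_notMem hAB, mul_zero]
  · have hAB : x ∉ A ∩ B := fun h => hA h.1
    rw [ind_of_notMem hA, ind_of_notMem hAB, zero_mul]

/-- The relative increment step: many unpopular sums. -/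
lemma pop_rel (H : Submodule (ZMod 2) V) (A : Set V) (y : V) {d : ℕ} (hd : 1 ≤ d)
    (hα : (1 / 2 : ℝ) ^ d ≤ dens H A y)
    (hγ : (1 / 2 : ℝ) ^ (d + 1) < dens H (Unpop H A y) 0) :
    ∃ H' ≤ H, finrank (ZMod 2) H ≤ finrank (ZMod 2) H' + stepDim d ∧
      ∃ y', 135 / 128 * dens H A y ≤ dens H' A y' := by
  classical
  have hα' : (1 / 2 : ℝ) ^ d ≤ 𝔼 h : H, ind A (y + (h : V)) := by rwa [expect_eq_dens]
  have hγ' : (1 / 2 : ℝ) ^ (d + 1) < 𝔼 h : H, ind (Unpop H A y) (0 + (h : V)) := by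
    rwa [expect_eq_dens]
  obtain ⟨W, hW, x0, hx0⟩ := increment_pop (V := H) (fun h => ind A (y + (h : V)))
    (fun h => ind (Unpop H A y) (0 + (h : V)))
    (fun h => ind_cases A _) (fun h => ind_cases _ _)
    (fun z hz => by
      have hz' : (z : V) ∈ Unpop H A y := by
        by_contra hcon
        rw [zero_add, ind_of_notMem hcon] at hz
        norm_num at hz
      have e1 : corr (fun h : H => ind A (y + (h : V))) (fun h : H => ind A (y + (h : V))) z
          = dens H (A ∩ {v | v + z ∈ A}) y := by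
        rw [← expect_eq_dens]
        unfold corr
        refine Finset.expect_congr rfl (fun h _ => ?_)
        rw [ind_inter]
        congr 1
        show ind A (y + ((h + z : H) : V)) = _
        rw [Submodule.coe_add, ← add_assoc]
        by_cases hm : y + (h : V) + z ∈ A
        · rw [ind_of_mem hm, ind_of_mem (show y + (h : V) ∈ {v | v + (z : V) ∈ A} from hm)]
        · rw [ind_of_notMem hm, ind_of_notMem (show y + (h : V) ∉ {v | v + (z : V) ∈ A} from hm)]
      rw [e1, expect_eq_dens]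
      exact hz')
    hd hα' hγ'
  refine ⟨W.map H.subtype, Submodule.map_subtype_le H W, ?_, ?_⟩
  · rw [Submodule.finrank_map_subtype_eq]
    exact hW
  · rw [expect_eq_dens, avg_sub_eq_dens] at hx0
    exact ⟨_, hx0⟩

end Pool.Agent.H35.MC
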