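import Pool.Agent.H35.MC.Close

set_option autoImplicit false

open Finset Function Module
open scoped BigOperators

namespace Pool.Agent.H35.MC

open Pool.Agent.H77.KM

universe u

variable {V : Type u} [AddCommGroup V] [Module (ZMod 2) V] [Fintype V]

/-- No plane in which exactly one point is in `R`. -/
def NoOne (R B : Set V) : Prop :=
  ∀ r s x : V, r ∈ R → s ∈ B → x ∈ B → r + s ∈ B → r + x ∈ B → s + x ∈ B → r + (s + x) ∈ B →
    False

/-- No plane in which exactly two points are in `R`. -/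
def NoTwo (R B : Set V) : Prop :=
  ∀ r r' x : V, r ∈ R → r' ∈ R → r + r' ∈ B → x ∈ B → x + r ∈ B → x + r' ∈ B →
    x + (r + r') ∈ B → False

/-- No plane in which `R` is a line. -/
def NoLine (R B : Set V) : Prop :=
  ∀ r r' x : V, r ∈ R → r' ∈ R → r + r' ∈ R → x ∈ B → x + r ∈ B → x + r' ∈ B →
    x + (r + r') ∈ B → False

lemma cost_bound (t : ℕ) (ht : 1 ≤ t) :
    (t + 42 * (4 * t + 13) * stepDim (4 * t + 13)) + (2 * t + 2) + t * cost t
      ≤ 10 ^ 30 * t ^ 10 := by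
  have h1 := stepDim_le (4 * t + 13) (by omega)
  have h2 := stepDim_le (2 * t + 5) (by omega)
  have h3 := stepDim_le (t + 1) (by omega)
  have k1 : (4 * t + 13) ^ 8 ≤ (17 * t) ^ 8 := Nat.pow_le_pow_left (by omega) 8
  have k2 : (2 * t + 5) ^ 8 ≤ (7 * t) ^ 8 := Nat.pow_le_pow_left (by omega) 8
  have k3 : (t + 1) ^ 8 ≤ (2 * t) ^ 8 := Nat.pow_le_pow_left (by omega) 8
  have h1' : stepDim (4 * t + 13) ≤ 12582920 * 339 ^ 4 * (17 * t) ^ 8 :=
    le_trans h1 (Nat.mul_le_mul_left _ k1)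
  have h2' : stepDim (2 * t + 5) ≤ 12582920 * 339 ^ 4 * (7 * t) ^ 8 :=
    le_trans h2 (Nat.mul_le_mul_left _ k2)
  have h3' : stepDim (t + 1) ≤ 12582920 * 339 ^ 4 * (2 * t) ^ 8 :=
    le_trans h3 (Nat.mul_le_mul_left _ k3)
  have m1 : 42 * (4 * t + 13) * stepDim (4 * t + 13)
      ≤ 42 * (17 * t) * (12582920 * 339 ^ 4 * (17 * t) ^ 8) :=
    Nat.mul_le_mul (by omega) h1'
  have m2 : 14 * (2 * t + 5) * stepDim (2 * t + 5)
      ≤ 14 * (7 * t) * (12582920 * 339 ^ 4 * (7 * t) ^ 8) :=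
    Nat.mul_le_mul (by omega) h2'
  have m3 : 14 * (t + 1) * stepDim (t + 1)
      ≤ 14 * (2 * t) * (12582920 * 339 ^ 4 * (2 * t) ^ 8) :=
    Nat.mul_le_mul (by omega) h3'
  have m4 : t * cost t ≤ t * (14 * (7 * t) * (12582920 * 339 ^ 4 * (7 * t) ^ 8)
      + 14 * (2 * t) * (12582920 * 339 ^ 4 * (2 * t) ^ 8)) :=
    Nat.mul_le_mul_left _ (Nat.add_le_add m2 m3)
  have e1 : 42 * (17 * t) * (12582920 * 339 ^ 4 * (17 * t) ^ 8)
      = 42 * 17 * (12582920 * 339 ^ 4 * 17 ^ 8) * t ^ 9 := by ring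
  have e2 : t * (14 * (7 * t) * (12582920 * 339 ^ 4 * (7 * t) ^ 8)
      + 14 * (2 * t) * (12582920 * 339 ^ 4 * (2 * t) ^ 8))
      = (14 * 7 * (12582920 * 339 ^ 4 * 7 ^ 8) + 14 * 2 * (12582920 * 339 ^ 4 * 2 ^ 8))
        * t ^ 10 := by ring
  rw [e1] at m1
  rw [e2] at m4
  have p9 : t ^ 9 ≤ t ^ 10 := Nat.pow_le_pow_right ht (by norm_num)
  have p1 : t ≤ t ^ 10 := Nat.le_self_pow (by norm_num) t
  have n1 : 42 * 17 * (12582920 * 339 ^ 4 * 17 ^ 8) * t ^ 9
      ≤ 42 * 17 * (12582920 * 339 ^ 4 * 17 ^ 8) * t ^ 10 := Nat.mul_le_mul_left _ p9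
  set T := t ^ 10 with hT
  have n2 : 42 * 17 * (12582920 * 339 ^ 4 * 17 ^ 8) * T
      + (14 * 7 * (12582920 * 339 ^ 4 * 7 ^ 8) + 14 * 2 * (12582920 * 339 ^ 4 * 2 ^ 8)) * T
      + 5 * T ≤ 10 ^ 30 * T := by
    rw [← Nat.add_mul, ← Nat.add_mul]
    exact Nat.mul_le_mul_right _ (by norm_num)
  omega

/-- The vector form of the result: two colours on the nonzero vectors, one of the three
kinds of planes being excluded. -/
theorem main_vec (R B : Set V) (h0R : (0 : V) ∉ R) (h0B : (0 : V) ∉ B) (hRB : ∀ v ∈ R, v ∉ B)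
    (hcov : ∀ v : V, v ≠ 0 → v ∈ R ∨ v ∈ B) (htype : NoOne R B ∨ NoTwo R B ∨ NoLine R B)
    (t : ℕ) (ht : 1 ≤ t) (hn : 10 ^ 30 * t ^ 10 ≤ finrank (ZMod 2) V) :
    ∃ U : Submodule (ZMod 2) V, finrank (ZMod 2) U = t ∧
      ((∀ u ∈ U, u ∉ R) ∨ (∀ u ∈ U, u ∉ B)) := by
  classical
  have hself : ∀ x : V, x + x = 0 := fun x => ZModModule.add_self x
  by_cases hdR : ∀ H : Submodule (ZMod 2) V, t ≤ finrank (ZMod 2) H →
      (1 / 2 : ℝ) ^ t ≤ dens H R 0
  swap
  · push Not at hdR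
    obtain ⟨H, hH, hsp⟩ := hdR
    obtain ⟨U, _, hU, hUR⟩ := dense_or_missed R h0R H hH hsp
    exact ⟨U, hU, Or.inl hUR⟩
  by_cases hdB : ∀ H : Submodule (ZMod 2) V, t ≤ finrank (ZMod 2) H →
      (1 / 2 : ℝ) ^ t ≤ dens H B 0
  swap
  · push Not at hdB
    obtain ⟨H, hH, hsp⟩ := hdB
    obtain ⟨U, _, hU, hUB⟩ := dense_or_missed B h0B H hH hsp
    exact ⟨U, hU, Or.inr hUB⟩
  have hcb := cost_bound t ht
  have hposd : (0 : ℝ) < (1 / 2) ^ (4 * t + 13) := by positivity
  have finB : ∀ W : Submodule (ZMod 2) V, (∀ w ∈ W, w ≠ 0 → w ∈ B) → ∀ u ∈ W, u ∉ R := by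
    intro W hW u hu huR
    have hu0 : u ≠ 0 := fun h => h0R (by rwa [h] at huR)
    exact hRB u huR (hW u hu hu0)
  have finR : ∀ W : Submodule (ZMod 2) V, (∀ w ∈ W, w ≠ 0 → w ∈ R) → ∀ u ∈ W, u ∉ B := by
    intro W hW u hu huB
    have hu0 : u ≠ 0 := fun h => h0B (by rwa [h] at huB)
    exact hRB u (hW u hu hu0) huB
  rcases htype with h1 | h2 | h3
  · obtain ⟨W, _, _, hW, hWX, _, _⟩ := grow R B B B hRB (Or.inr rfl) (Or.inr rfl) t 0 ht hdR hdB
      (by
        intro W H z y hz hWX _ hd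
        refine close_beta R B B B hcov ?_ W H z y hz hWX (lt_of_lt_of_le hposd hd)
        intro x hx s s' hs hsx hs' hs'x r hr hrR hrB
        refine h1 r s x hrR hs hx ?_ hrB hsx ?_
        · rcases hr with rfl | rfl
          · have e : s + s' + s = (s + s) + s' := by abel
            rw [e, hself, zero_add]; exact hs'
          · have e : s + s' + x + s = (s + s) + (s' + x) := by abel
            rw [e, hself, zero_add]; exact hs'x
        · rcases hr with rfl | rfl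
          · have e : s + s' + (s + x) = (s + s) + (s' + x) := by abel
            rw [e, hself, zero_add]; exact hs'x
          · have e : s + s' + x + (s + x) = (s + s) + (x + x) + s' := by abel
            rw [e, hself, hself, zero_add, zero_add]; exact hs')
      t le_rfl (by omega)
    exact ⟨W, hW, Or.inl (finB W hWX)⟩
  · obtain ⟨W, _, _, hW, hWX, _, _⟩ := grow R B R B hRB (Or.inl rfl) (Or.inr rfl) t 0 ht hdR hdB
      (by
        intro W H z y hz hWX _ hd
        refine close_beta R B R B hcov ?_ W H z y hz hWX (lt_of_lt_of_le hposd hd)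
        intro x hx s s' hs hsx hs' hs'x r hr hrR hrB
        refine h2 x r s hx hrR ?_ hs hsx ?_ ?_
        · rwa [add_comm] at hrB
        · rcases hr with rfl | rfl
          · have e : s + (s + s') = (s + s) + s' := by abel
            rw [e, hself, zero_add]; exact hs'
          · have e : s + (s + s' + x) = (s + s) + (s' + x) := by abel
            rw [e, hself, zero_add]; exact hs'x
        · rcases hr with rfl | rfl
          · have e : s + (x + (s + s')) = (s + s) + (s' + x) := by abel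
            rw [e, hself, zero_add]; exact hs'x
          · have e : s + (x + (s + s' + x)) = (s + s) + (x + x) + s' := by abel
            rw [e, hself, hself, zero_add, zero_add]; exact hs')
      t le_rfl (by omega)
    exact ⟨W, hW, Or.inr (finR W hWX)⟩
  · obtain ⟨W, _, _, hW, hWX, _, _⟩ := grow R B B B hRB (Or.inr rfl) (Or.inr rfl) t
      (t + 42 * (4 * t + 13) * stepDim (4 * t + 13)) ht hdR hdB
      (by
        intro W H z y hz hWX hdim hd
        exact close_line R B h0R h0B hRB hcov t hdR h3 W H z y hz hWX hdim hd)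
      t le_rfl (by omega)
    exact ⟨W, hW, Or.inl (finB W hWX)⟩

end Pool.Agent.H35.MC
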